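import Pool.Agent.IG.Main

/-!
# Almost all groups of prime-power order are not integrable

For every prime `p` the proportion `i_p(n) / g_p(n)` of integrable groups among the groups of order
`p ^ n` tends to `0` as `n` tends to infinity.
-/

open Filter Topology

noncomputable section

namespace Pool.Agent.Results.MP_5df73b_al.AlmostNoneIntegrable

universe v

/-- isomorphism of group structures on the set `Fin N` -/
def isoSetoid (N : ℕ) : Setoid (Group (Fin N)) where
  r G H := Nonempty (@MulEquiv (Fin N) (Fin N) G.toMul H.toMul)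
  iseqv := by
    refine ⟨fun G => ?_, fun {G H} h => ?_, fun {G H K} h h' => ?_⟩
    · exact ⟨@MulEquiv.refl (Fin N) G.toMul⟩
    · obtain ⟨e⟩ := h
      exact ⟨@MulEquiv.symm _ _ G.toMul H.toMul e⟩
    · obtain ⟨e⟩ := h
      obtain ⟨e'⟩ := h'
      exact ⟨@MulEquiv.trans _ _ _ G.toMul H.toMul K.toMul e e'⟩

/-- the isomorphism classes of groups of order `N` -/
def GroupClass (N : ℕ) : Type := Quotient (isoSetoid N)

/-- a group `G` is integrable if it is isomorphic to the derived group of some group `H` -/
def IsIntegrable (G : Type) [Group G] : Prop :=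
  ∃ (H : Type v) (_ : Group H), Nonempty (commutator H ≃* G)

/-- `g_p(n)`: the number of isomorphism classes of groups of order `p ^ n` -/
def numGroups (p n : ℕ) : ℕ := Nat.card (GroupClass (p ^ n))

/-- `i_p(n)`: the number of isomorphism classes of integrable groups of order `p ^ n` -/
def numIntegrable (p n : ℕ) : ℕ :=
  Nat.card {c : GroupClass (p ^ n) // ∃ G : Group (Fin (p ^ n)),
    Quotient.mk (isoSetoid (p ^ n)) G = c ∧ @IsIntegrable.{v} (Fin (p ^ n)) G}

theorem numIntegrable_eq (p n : ℕ) : numIntegrable.{v} p n = Pool.Agent.IG.ip.{v} p n := rfl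

theorem numGroups_eq (p n : ℕ) : numGroups p n = Pool.Agent.IG.gp p n := by
  refine Nat.card_congr ⟨fun c => ⟨c, ?_⟩, fun c => c.1, fun c => rfl, fun c => rfl⟩
  obtain ⟨G, hG⟩ := Quotient.exists_rep c
  exact ⟨G, hG, trivial⟩

/-- for every prime `p` the proportion of integrable groups among the groups of order `p ^ n` tends
to `0` -/
theorem result (p : ℕ) (hp : p.Prime) :
    Tendsto (fun n : ℕ => (numIntegrable.{v} p n : ℝ) / (numGroups p n : ℝ)) atTop (𝓝 0) := by
  simp only [numIntegrable_eq, numGroups_eq]
  exact Pool.Agent.IG.main.{v} p hp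

end Pool.Agent.Results.MP_5df73b_al.AlmostNoneIntegrable
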